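import Mathlib

/-!
# Disjoint boxes with the `k`-piercing property: the case `n ≤ 2 k - 2`

If `m` pairwise disjoint boxes in `[n]^d` have the `k`-piercing property, then
`k * n ^ (d - 1) ≤ m * (n + 1 - k) ^ (d - 1)`; in particular `m ≥ 2 ^ d` if `n ≤ 2 k - 2`.

Proof: on each line through a box there are points of `k - 1` further boxes, so that its sides have
at most `n + 1 - k` elements; every slice `x 0 = a` satisfies the hypotheses in dimension `d - 1`;
sum over `a`.
-/

set_option autoImplicit false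

namespace Pool.Agent.Results.MP_4a756a_co.ManyPierced

open Finset

variable {ι : Type} [DecidableEq ι]

theorem side_le {n k d : ℕ} (J : Finset ι) (S : ι → Fin (d + 1) → Finset (Fin n))
    (hne : ∀ j ∈ J, ∀ i, (S j i).Nonempty)
    (hdis : ∀ j ∈ J, ∀ j' ∈ J, j ≠ j' → ∀ x : Fin (d + 1) → Fin n,
      ¬ ((∀ l, x l ∈ S j l) ∧ (∀ l, x l ∈ S j' l)))
    (hp : ∀ (i : Fin (d + 1)) (x : Fin (d + 1) → Fin n),
      k ≤ (J.filter (fun j => ∃ t : Fin n, ∀ l, Function.update x i t l ∈ S j l)).card)
    (j : ι) (hj : j ∈ J) (i : Fin (d + 1)) : (S j i).card + k ≤ n + 1 := by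
  classical
  choose x hx using hne j hj
  set J' := J.filter (fun j => ∃ t : Fin n, ∀ l, Function.update x i t l ∈ S j l) with hJ'
  have hk : k ≤ J'.card := hp i x
  have hjJ' : j ∈ J' := by
    rw [hJ', Finset.mem_filter]
    refine ⟨hj, x i, ?_⟩
    rw [Function.update_eq_self]
    exact hx
  have hch : ∀ j' : ι, ∃ t : Fin n, j' ∈ J' → ∀ l, Function.update x i t l ∈ S j' l := by
    intro j'
    by_cases h : j' ∈ J'
    · obtain ⟨t, ht⟩ := (Finset.mem_filter.1 h).2
      exact ⟨t, fun _ => ht⟩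
    · exact ⟨x i, fun h' => absurd h' h⟩
  choose t ht using hch
  have h1 : (J'.erase j).card ≤ (univ \ S j i).card := by
    refine Finset.card_le_card_of_injOn t ?_ ?_
    · intro j' hj'
      have hj'1 := Finset.mem_erase.1 (Finset.mem_coe.1 hj')
      rw [Finset.mem_coe, Finset.mem_sdiff]
      refine ⟨mem_univ _, fun hmem => ?_⟩
      refine hdis j hj j' (Finset.mem_filter.1 hj'1.2).1 hj'1.1.symm
        (Function.update x i (t j')) ⟨?_, ht j' hj'1.2⟩
      intro l
      by_cases hl : l = i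
      · subst hl
        rw [Function.update_self]
        exact hmem
      · rw [Function.update_of_ne hl]
        exact hx l
    · intro a ha b hb hab
      have ha1 := Finset.mem_erase.1 (Finset.mem_coe.1 ha)
      have hb1 := Finset.mem_erase.1 (Finset.mem_coe.1 hb)
      by_contra hne'
      refine hdis a (Finset.mem_filter.1 ha1.2).1 b (Finset.mem_filter.1 hb1.2).1 hne'
        (Function.update x i (t a)) ⟨ht a ha1.2, ?_⟩
      rw [hab]
      exact ht b hb1.2
  rw [Finset.card_erase_of_mem hjJ', Finset.card_sdiff_of_subset (subset_univ _),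
    Finset.card_univ, Fintype.card_fin] at h1
  have h2 : (S j i).card ≤ n := by
    have := Finset.card_le_univ (S j i)
    rwa [Fintype.card_fin] at this
  have h3 : 0 < J'.card := Finset.card_pos.2 ⟨j, hjJ'⟩
  omega

theorem bound {n k : ℕ} (d : ℕ) : ∀ (J : Finset ι) (S : ι → Fin (d + 1) → Finset (Fin n)),
    (∀ j ∈ J, ∀ i, (S j i).Nonempty) →
    (∀ j ∈ J, ∀ j' ∈ J, j ≠ j' → ∀ x : Fin (d + 1) → Fin n,
      ¬ ((∀ l, x l ∈ S j l) ∧ (∀ l, x l ∈ S j' l))) →
    (∀ (i : Fin (d + 1)) (x : Fin (d + 1) → Fin n),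
      k ≤ (J.filter (fun j => ∃ t : Fin n, ∀ l, Function.update x i t l ∈ S j l)).card) →
    (0 < n) → k * n ^ d ≤ J.card * (n + 1 - k) ^ d := by
  classical
  induction d with
  | zero =>
    intro J S _ _ hp hn
    have h1 := hp 0 (fun _ => ⟨0, hn⟩)
    have h2 := h1.trans (Finset.card_filter_le _ _)
    simpa using h2
  | succ d ih =>
    intro J S hne hdis hp hn
    have hslice : ∀ a : Fin n,
        k * n ^ d ≤ (J.filter (fun j => a ∈ S j 0)).card * (n + 1 - k) ^ d := by
      intro a
      apply ih (J.filter (fun j => a ∈ S j 0)) (fun j l => S j l.succ)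
      · intro j hj i
        exact hne j (Finset.mem_filter.1 hj).1 _
      · intro j hj j' hj' hjj x hx
        refine hdis j (Finset.mem_filter.1 hj).1 j' (Finset.mem_filter.1 hj').1 hjj
          (Fin.cons a x) ⟨?_, ?_⟩
        · intro l
          refine Fin.cases ?_ (fun l => ?_) l
          · exact (Finset.mem_filter.1 hj).2
          · rw [Fin.cons_succ]
            exact hx.1 l
        · intro l
          refine Fin.cases ?_ (fun l => ?_) l
          · exact (Finset.mem_filter.1 hj').2
          · rw [Fin.cons_succ]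
            exact hx.2 l
      · intro i x
        refine (hp i.succ (Fin.cons a x)).trans (Finset.card_le_card ?_)
        intro j hj
        obtain ⟨hjJ, t, ht⟩ := Finset.mem_filter.1 hj
        have h0 := ht 0
        rw [Function.update_of_ne (Fin.succ_ne_zero i).symm, Fin.cons_zero] at h0
        rw [Finset.mem_filter, Finset.mem_filter]
        refine ⟨⟨hjJ, h0⟩, t, ?_⟩
        intro l
        have h1 := ht l.succ
        rw [← Fin.cons_update, Fin.cons_succ] at h1
        exact h1
      · exact hn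
    have hsum : ∑ a : Fin n, (J.filter (fun j => a ∈ S j 0)).card = ∑ j ∈ J, (S j 0).card := by
      simp only [Finset.card_filter]
      rw [Finset.sum_comm]
      apply Finset.sum_congr rfl
      intro j _
      rw [← Finset.card_filter]
      congr 1
      ext a
      simp
    have hle : ∑ j ∈ J, (S j 0).card ≤ J.card * (n + 1 - k) := by
      rw [← smul_eq_mul, ← Finset.sum_const]
      apply Finset.sum_le_sum
      intro j hj
      have := side_le J S hne hdis hp j hj 0
      omega
    calc k * n ^ (d + 1) = ∑ _a : Fin n, k * n ^ d := by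
          rw [Finset.sum_const, Finset.card_univ, Fintype.card_fin, smul_eq_mul]
          ring
      _ ≤ ∑ a : Fin n, (J.filter (fun j => a ∈ S j 0)).card * (n + 1 - k) ^ d :=
          Finset.sum_le_sum (fun a _ => hslice a)
      _ = (∑ j ∈ J, (S j 0).card) * (n + 1 - k) ^ d := by rw [← Finset.sum_mul, hsum]
      _ ≤ (J.card * (n + 1 - k)) * (n + 1 - k) ^ d := Nat.mul_le_mul_right _ hle
      _ = J.card * (n + 1 - k) ^ (d + 1) := by ring

/-- `m` pairwise disjoint boxes `S j 0 × ⋯ × S j (d-1)` in `[n]^d` (nonempty proper sides) such that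
every line meets at least `k` of them satisfy `k * n ^ (d - 1) ≤ m * (n + 1 - k) ^ (d - 1)`, and
`2 ^ d ≤ m` if `n ≤ 2 k - 2`. -/
theorem result (n d k m : ℕ) (hd : 1 ≤ d) (hk : 2 ≤ k) (hkn : k ≤ n)
    (S : Fin m → Fin d → Finset (Fin n))
    (hne : ∀ j i, (S j i).Nonempty ∧ S j i ≠ Finset.univ)
    (hdis : ∀ j j', j ≠ j' → ∀ x : Fin d → Fin n,
      ¬ ((∀ l, x l ∈ S j l) ∧ (∀ l, x l ∈ S j' l)))
    (hp : ∀ (i : Fin d) (x : Fin d → Fin n),
      k ≤ (Finset.univ.filter
        (fun j : Fin m => ∃ t : Fin n, ∀ l : Fin d, Function.update x i t l ∈ S j l)).card) :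
    k * n ^ (d - 1) ≤ m * (n + 1 - k) ^ (d - 1) ∧ (n + 2 ≤ 2 * k → 2 ^ d ≤ m) := by
  classical
  obtain ⟨e, rfl⟩ : ∃ e, d = e + 1 := ⟨d - 1, by omega⟩
  have h := bound (k := k) e (Finset.univ : Finset (Fin m)) S (fun j _ i => (hne j i).1)
    (fun j _ j' _ => hdis j j') (fun i x => by convert hp i x) (by omega)
  rw [Finset.card_univ, Fintype.card_fin] at h
  refine ⟨h, fun hn2 => ?_⟩
  have h1 : (2 * (n + 1 - k)) ^ e ≤ n ^ e := Nat.pow_le_pow_left (by omega) e
  have h2 : 0 < (n + 1 - k) ^ e := pow_pos (by omega) e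
  have h3 : (k * 2 ^ e) * (n + 1 - k) ^ e ≤ m * (n + 1 - k) ^ e := by
    calc (k * 2 ^ e) * (n + 1 - k) ^ e = k * (2 * (n + 1 - k)) ^ e := by rw [mul_pow]; ring
      _ ≤ k * n ^ e := Nat.mul_le_mul_left _ h1
      _ ≤ _ := h
  have h4 := Nat.le_of_mul_le_mul_right h3 h2
  calc 2 ^ (e + 1) = 2 * 2 ^ e := by ring
    _ ≤ k * 2 ^ e := Nat.mul_le_mul_right _ hk
    _ ≤ m := h4

end Pool.Agent.Results.MP_4a756a_co.ManyPierced
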